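import Pool.Agent.helper22.FI.SpecA

set_option autoImplicit false

namespace Pool.Agent.FI

open Pool.Agent.helper58.DC Pool.Agent.DI Pool.Agent.GR Pool.Agent.OB

theorem UNQ (h1 : HTC_stmt) (h2 : DVD_stmt) (h3 : SBI_stmt) (h4 : B2_stmt) : UNQ_stmt := by
  classical
  intro p M hS G _ _ L D w hL ψ hψ hD ψ₁ hψ₁ ψ₂ hψ₂ hc
  by_contra hne
  obtain ⟨-, n, k, hn, hnk, hk⟩ := h1 p M hS G L D w hL ψ hψ hD ψ₁ hψ₁
  obtain ⟨-, hB, -⟩ := h2 p M hS G L D w hL ψ hψ hD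
  have b1 := (hB ψ₁ hψ₁ ψ₁ hψ₁ (fun d _ => rfl)).1 rfl
  have b2 := (hB ψ₂ hψ₂ ψ₁ hψ₁ (fun d hd => (hc d hd).symm)).2 (Ne.symm hne)
  obtain ⟨⟨n1, hn1, e1, -⟩, c1, i1, -, -⟩ := (h4 G L).2 ψ₁ hψ₁.1
  have hn0 : (n : ℂ) ≠ 0 := by
    rw [← hn, e1]
    exact_mod_cast hn1.ne'
  have hk0 : (k : ℂ) ≠ 0 := by
    have h : k ≠ 0 := by
      rintro rfl
      exact hk (dvd_zero p)
    exact_mod_cast h
  have hD0 : (Nat.card D : ℂ) ≠ 0 := Nat.cast_ne_zero.2 Nat.card_pos.ne'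
  set f : G → ℂ := fun x => if x ∈ L ∧ PReg p x then (k : ℂ)⁻¹ * ψ₁ x⁻¹ else 0 with hf
  have hkI : IntAt M (k : ℂ)⁻¹ := IntAt.inv hS (IntAt.natCast hS k) (fun h => hk ((InM.natCast hS k).1 h))
  have hCF : CF L f := by
    refine ⟨fun h hh x => ?_, fun x hx => if_neg (fun h => hx h.1)⟩
    have a1 : h * x * h⁻¹ ∈ L ↔ x ∈ L := by
      constructor
      · intro hx
        have h5 := L.mul_mem (L.mul_mem (L.inv_mem hh) hx) hh
        have e : h⁻¹ * (h * x * h⁻¹) * h = x := by group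
        rwa [e] at h5
      · intro hx
        exact L.mul_mem (L.mul_mem hh hx) (L.inv_mem hh)
    have a2 : PReg p (h * x * h⁻¹) ↔ PReg p x := by
      unfold PReg
      have e : orderOf (h * x * h⁻¹) = orderOf x := MulEquiv.orderOf_eq (MulAut.conj h) x
      rw [e]
    have a3 : ψ₁ (h * x * h⁻¹)⁻¹ = ψ₁ x⁻¹ := by
      rw [← c1 x⁻¹ h hh]
      congr 1
      group
    simp only [hf, a1, a2, a3]
  have hfI : ∀ x, IntAt M (f x) := by
    intro x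
    simp only [hf]
    split_ifs
    · exact IntAt.mul hS hkI (IntAt.of_isIntegral hS (i1 _))
    · exact IntAt.zero hS
  have hsb : SB M L ψ₁ ψ₂ := hψ₁.2.trans hψ₂.2.symm
  have hI := (h3 p M hS G L ψ₁ ψ₂ hsb).1 f hCF hfI
  have key : ∀ φ : G → ℂ, ∑ᶠ x, f x * φ x = (k : ℂ)⁻¹ * ∑ᶠ v ∈ {v : G | v ∈ L ∧ PReg p v}, φ v * ψ₁ v⁻¹ := by
    intro φ
    have hG : Fintype G := Fintype.ofFinite G
    rw [finsum_mem_def, finsum_eq_sum_of_fintype, finsum_eq_sum_of_fintype, Finset.mul_sum]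
    refine Finset.sum_congr rfl fun x _ => ?_
    by_cases hx : x ∈ L ∧ PReg p x
    · rw [Set.indicator_of_mem (show x ∈ {v : G | v ∈ L ∧ PReg p v} from hx)]
      simp only [hf]
      rw [if_pos hx]
      ring
    · rw [Set.indicator_of_notMem (show x ∉ {v : G | v ∈ L ∧ PReg p v} from hx)]
      simp only [hf]
      rw [if_neg hx]
      ring
  have v1 : cc ψ₁ f = 1 := by
    unfold cc
    rw [key ψ₁]
    have h5 : ∑ᶠ v ∈ {v : G | v ∈ L ∧ PReg p v}, ψ₁ v * ψ₁ v⁻¹ = (n : ℂ) * k := by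
      have e : (Nat.card L : ℂ) = n * Nat.card D * k := by exact_mod_cast hnk.symm
      rw [e] at b1
      apply mul_left_cancel₀ hD0
      rw [b1]
      ring
    rw [h5, hn]
    field_simp
  have v2 : cc ψ₂ f = 0 := by
    unfold cc
    rw [key ψ₂, b2, mul_zero, zero_div]
  rw [v1, v2, sub_zero] at hI
  exact InM.not_one hS hI

end Pool.Agent.FI
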