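import Pool.Agent.helper40.FI.SpecLA

set_option autoImplicit false

namespace Pool.Agent.FI

open Finset

theorem LTO (hLGM : LGM_stmt) (hLFR : LFR_stmt) : LTO_stmt := by
  classical
  intro p D _ _ _ X _ Z I g l₀ A hG hF hA
  have hfin : Finite (MulAut D) := Finite.of_injective (fun (t : MulAut D) (u : D) => t u)
    (fun t t' h => MulEquiv.ext fun u => congrFun h u)
  have hI : Fintype I := Fintype.ofFinite I
  have hcD : (Nat.card D : ℂ) ≠ 0 := Nat.cast_ne_zero.2 Nat.card_pos.ne'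
  have h0 : ∀ χ, A χ l₀ = 0 := by
    intro χ
    have h := hA χ l₀ self_mem_ov
    simp only [sub_self, mul_zero, Finset.sum_const_zero] at h
    have h2 := (mul_eq_zero.1 h.symm).resolve_left hcD
    exact_mod_cast h2
  set s := (ov Z l₀).erase l₀ with hs
  have hms : ∀ l ∈ s, l ∈ ov Z l₀ ∧ l ≠ l₀ := fun l hl => ⟨Finset.mem_of_mem_erase hl, Finset.ne_of_mem_erase hl⟩
  have hidx : 1 ≤ Z.index := by
    rw [← card_ov Z l₀]
    exact Finset.card_pos.2 ⟨l₀, self_mem_ov⟩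
  have hcard : (s.card : ℤ) = (Z.index : ℤ) - 1 := by
    rw [hs, Finset.card_erase_of_mem self_mem_ov, card_ov, Nat.cast_sub hidx, Nat.cast_one]
  have e1 : ∀ χ, ∑ l ∈ ov Z l₀, A χ l ^ 2 = ∑ l ∈ s, A χ l * A χ l := by
    intro χ
    have h := Finset.sum_erase (ov Z l₀) (a := l₀) (f := fun l => A χ l * A χ l) (by rw [h0, mul_zero])
    rw [hs, h]
    exact Finset.sum_congr rfl fun l _ => by ring
  have e2 : ∀ χ, (∑ l ∈ ov Z l₀, A χ l) ^ 2 = ∑ l ∈ s, ∑ l' ∈ s, A χ l * A χ l' := by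
    intro χ
    have h := Finset.sum_erase (ov Z l₀) (a := l₀) (f := fun l => A χ l) (h0 χ)
    rw [← h, sq, Finset.sum_mul_sum]
  have e3 : ∀ l ∈ s, ∑ χ ∈ lX Z l₀ g, A χ l * A χ l = 1 + (Nat.card I : ℤ) := by
    intro l hl
    rw [hLGM p D X Z I g l₀ A hG hF hA l (hms l hl).1 l (hms l hl).1 (hms l hl).2 (hms l hl).2]
    have h1 : Nat.card {t : I // tw (t : MulAut D) l = l} = 1 := by
      rw [Nat.card_eq_one_iff_unique]
      have key : ∀ a : {t : I // tw (t : MulAut D) l = l}, (a : I) = 1 := fun a =>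
        Subtype.ext (hLFR p D X Z I g l₀ l a hG hF (hms l hl).1 (hms l hl).2 a.1.2 a.2)
      exact ⟨⟨fun a b => Subtype.ext ((key a).trans (key b).symm)⟩, ⟨⟨1, tw_one l⟩⟩⟩
    rw [h1, Nat.cast_one]
  have hto : ∀ l ∈ s, ∀ t ∈ I, tw t l ∈ s := by
    intro l hl t ht
    refine Finset.mem_erase.2 ⟨?_, ?_⟩
    · intro h
      have h2 : tw t l₀ = l₀ := lv_inj fun u => by rw [lv_tw]; exact hF t ht u
      exact (hms l hl).2 (tw_injective t (h.trans h2.symm))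
    · rw [mem_ov]
      intro z hz
      rw [lv_tw, hG.fz t ht z hz]
      exact mem_ov.1 (hms l hl).1 z hz
  have e4 : ∀ l ∈ s, ∑ l' ∈ s, ∑ χ ∈ lX Z l₀ g, A χ l * A χ l' =
      (Nat.card I : ℤ) + (s.card : ℤ) * (Nat.card I : ℤ) := by
    intro l hl
    rw [Finset.sum_congr rfl fun l' hl' => hLGM p D X Z I g l₀ A hG hF hA l (hms l hl).1 l' (hms l' hl').1
      (hms l hl).2 (hms l' hl').2]
    rw [Finset.sum_add_distrib, Finset.sum_const, nsmul_eq_mul, ← Nat.cast_sum]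
    have h1 : ∀ l', Nat.card {t : I // tw (t : MulAut D) l = l'} =
        (Finset.univ.filter fun t : I => tw (t : MulAut D) l = l').card := by
      intro l'
      rw [Nat.card_eq_fintype_card, Fintype.card_subtype]
    have h2 : ∑ l' ∈ s, Nat.card {t : I // tw (t : MulAut D) l = l'} = Nat.card I := by
      rw [Finset.sum_congr rfl fun l' _ => h1 l', Nat.card_eq_fintype_card, ← Finset.card_univ]
      exact (Finset.card_eq_sum_card_fiberwise (f := fun t : I => tw (t : MulAut D) l) (s := Finset.univ) (t := s)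
        fun (t : I) _ => Finset.mem_coe.2 (hto l hl t t.2)).symm
    rw [h2]
  have t1 : ∑ χ ∈ lX Z l₀ g, ∑ l ∈ s, A χ l * A χ l = (s.card : ℤ) * (1 + (Nat.card I : ℤ)) := by
    rw [Finset.sum_comm, Finset.sum_congr rfl e3, Finset.sum_const, nsmul_eq_mul]
  have t2 : ∑ χ ∈ lX Z l₀ g, ∑ l ∈ s, ∑ l' ∈ s, A χ l * A χ l' =
      (s.card : ℤ) * ((Nat.card I : ℤ) + (s.card : ℤ) * (Nat.card I : ℤ)) := by
    have h1 : ∀ l ∈ s, ∑ χ ∈ lX Z l₀ g, ∑ l' ∈ s, A χ l * A χ l' =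
        (Nat.card I : ℤ) + (s.card : ℤ) * (Nat.card I : ℤ) := fun l hl => by
      rw [Finset.sum_comm]
      exact e4 l hl
    rw [Finset.sum_comm, Finset.sum_congr rfl h1, Finset.sum_const, nsmul_eq_mul]
  have fin : ∑ χ ∈ lX Z l₀ g, (((Z.index : ℤ) - 1 + Nat.card I) * ∑ l ∈ ov Z l₀, A χ l ^ 2 -
      (∑ l ∈ ov Z l₀, A χ l) ^ 2) = ((Z.index : ℤ) - 1 + Nat.card I) * ∑ χ ∈ lX Z l₀ g, ∑ l ∈ s, A χ l * A χ l -
      ∑ χ ∈ lX Z l₀ g, ∑ l ∈ s, ∑ l' ∈ s, A χ l * A χ l' := by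
    rw [Finset.mul_sum, ← Finset.sum_sub_distrib]
    exact Finset.sum_congr rfl fun χ _ => by rw [e1 χ, e2 χ]
  rw [fin, t1, t2, ← hcard]
  ring

end Pool.Agent.FI
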